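import Pool.Agent.N638.ET.Alp

/-!
# The numbers `e ^ (e ^ β)` with algebraic `β`, and exponential polynomials at algebraic points

The number `e ^ e` of the problem is the member `β = 1` of the family `e ^ (e ^ β)`, `β` algebraic.

We consider all the exponential polynomials `F(x) = ∑ exp(lam_i x) B_i(x)` with distinct algebraic
frequencies `lam_i` (one of them may be `0`) and arbitrary complex polynomials `B_i` of degree `< D`,
at the points `β` of an arbitrary finite set `A` of algebraic numbers.  Either all the values of `F`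
at algebraic numbers are linear forms in `1` and logarithms of algebraic numbers, with algebraic
coefficients, or `F(β)` is such a form for at most `(2 |A - A|) ^ (1 - δ)` elements `β` of `A`, where
`δ > 0` depends only on the number of terms and on `D`.  The first case only occurs trivially:
`B_i = 0` if `lam_i ≠ 0`, and the coefficients of the polynomial with `lam_i = 0` are such forms.

If `F(β)` is no such form then `e ^ F(β)` is transcendental.  For one term `v e ^ (lam β)` at most
`2 √|A - A|` elements `β` of `A` are exceptional.  For instance, if `ω_1, …, ω_n` are algebraic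
numbers which are linearly independent over `ℚ`, then at most `2 (4 T + 1) ^ (n / 2)` of the
`(2 T + 1) ^ n` numbers `e ^ (e ^ (a_1 ω_1 + ⋯ + a_n ω_n))`, `|a_i| ≤ T`, are algebraic.

Proof.  A subset of `A` with more than `(2 |A - A|) ^ (1 - 2 ^ (-d))` elements contains a cube
`β_0 + {∑ ε_i h_i}` of dimension `d` with `h_i ≠ 0`.  The numbers `exp(lam_i h_j)` are transcendental
and distinct for different `lam_i` (Hermite and Lindemann), and the theorem `TH160.TowP.part1G` of the
starting library on cubes applies, whose main input is the hyperplane case of the linear subgroup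
theorem of Waldschmidt and Roy.  For one term there is no grid `{β_1, β_2, β_3} + {0, h}` of
exceptional numbers, by the same theorem and the theorem of Lindemann and Weierstrass.
-/

set_option autoImplicit false

namespace Pool.Agent.Results.MP_58ae59_nt.AlgebraicPoints

open Polynomial
open scoped Pointwise

/-- The linear combinations, with algebraic coefficients, of `1` and of logarithms of algebraic
numbers. -/
noncomputable def LogForms : Submodule (algebraicClosure ℚ ℂ) ℂ :=
  Submodule.span (algebraicClosure ℚ ℂ) ({1} ∪ {z : ℂ | IsAlgebraic ℚ (Complex.exp z)})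

/-- `F(x) = ∑ exp(lam_i x) B_i(x)`. -/
noncomputable def F {m : ℕ} (lam : Fin m → ℂ) (B : Fin m → ℂ[X]) (x : ℂ) : ℂ :=
  ∑ i, Complex.exp (lam i * x) * (B i).eval x

/-- The trivial case: `B_i` has coefficients in `LogForms` if `lam_i = 0`, and `B_i = 0` if
`lam_i ≠ 0`. -/
def Trivial {m : ℕ} (lam : Fin m → ℂ) (B : Fin m → ℂ[X]) : Prop :=
  ∀ i, (lam i = 0 → ∀ n, (B i).coeff n ∈ LogForms) ∧ (lam i ≠ 0 → B i = 0)

/-- The integral vectors with coordinates of absolute value at most `T`. -/
noncomputable def box (n T : ℕ) : Finset (Fin n → ℤ) := Fintype.piFinset fun _ => Finset.Icc (-(T : ℤ)) T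

open Classical in
/-- **Main result.** -/
theorem result :
    (∀ m D : ℕ, ∃ δ : ℝ, 0 < δ ∧ ∀ lam : Fin m → ℂ, (∀ i, IsAlgebraic ℚ (lam i)) →
      Function.Injective lam → ∀ B : Fin m → ℂ[X], (∀ i, (B i).degree < D) →
        (Trivial lam B → ∀ β : ℂ, IsAlgebraic ℚ β → F lam B β ∈ LogForms) ∧
        (¬ Trivial lam B → ∀ A : Finset ℂ, (∀ β ∈ A, IsAlgebraic ℚ β) →
          ((A.filter fun β => F lam B β ∈ LogForms).card : ℝ) ≤
            (2 * (A - A).card : ℝ) ^ (1 - δ))) ∧
    (∀ v lam : ℂ, v ≠ 0 → lam ≠ 0 → IsAlgebraic ℚ lam → ∀ A : Finset ℂ,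
      (∀ β ∈ A, IsAlgebraic ℚ β) →
        ((A.filter fun β => v * Complex.exp (lam * β) ∈ LogForms).card : ℝ) ≤
          2 * √((A - A).card)) ∧
    (∀ (n : ℕ) (ω : Fin n → ℂ), (∀ i, IsAlgebraic ℚ (ω i)) → LinearIndependent ℚ ω → ∀ T : ℕ,
      (((box n T).filter fun a : Fin n → ℤ =>
        IsAlgebraic ℚ (Complex.exp (Complex.exp (∑ i, (a i : ℂ) * ω i)))).card : ℝ) ≤
          2 * √((4 * T + 1 : ℝ) ^ n)) ∧
    (∀ z γ δ : ℂ, z ∉ LogForms → IsAlgebraic ℚ γ → IsAlgebraic ℚ δ → δ ≠ 0 →
      Transcendental ℚ (Complex.exp (γ + δ * z))) := by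
  have hlt : Pool.Agent.W254.PA.Hyp (k := Pool.Agent.W254.Ab.QA ℂ) LogForms :=
    Pool.Agent.TH160.TowP.hyp_lt
  have one : ∀ v lam : ℂ, v ≠ 0 → lam ≠ 0 → IsAlgebraic ℚ lam → ∀ A : Finset ℂ,
      (∀ β ∈ A, IsAlgebraic ℚ β) →
        ((A.filter fun β => v * Complex.exp (lam * β) ∈ LogForms).card : ℝ) ≤
          2 * √((A - A).card) := fun v lam hv hlam hla A hA =>
    Pool.Agent.N638.ET.countE_one hlt hv hlam hla A hA
  refine ⟨?_, one, ?_, ?_⟩
  · intro m D
    obtain ⟨δ, hδ, h⟩ := Pool.Agent.N638.ET.countE hlt m D
    refine ⟨δ, hδ, fun lam hla hinj B hB => ⟨fun htr β hβ => ?_, fun hnt A hA => ?_⟩⟩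
    · apply Submodule.sum_mem
      intro i _
      by_cases hi : lam i = 0
      · rw [hi, zero_mul, Complex.exp_zero, one_mul, eval_eq_sum_range]
        apply Submodule.sum_mem
        intro n _
        rw [mul_comm]
        exact Pool.Agent.TH160.TowP.V_mul (V := LogForms) (hβ.pow n) ((htr i).1 hi n)
      · rw [(htr i).2 hi, eval_zero, mul_zero]
        exact Submodule.zero_mem _
    · have hZ : ∀ i, Pool.Agent.TH160.TowP.Z D (B i) := by
        intro i k hk
        apply coeff_eq_zero_of_degree_lt
        refine lt_of_lt_of_le (hB i) ?_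
        exact_mod_cast hk
      exact h lam hla hinj B hZ hnt A hA
  · intro n ω hω hli T
    set φ : (Fin n → ℤ) → ℂ := fun a => ∑ i, (a i : ℂ) * ω i with hφ
    have hφi : Function.Injective φ := by
      intro a b hab
      have h1 : ∑ i, ((a i - b i : ℤ) : ℚ) • ω i = 0 := by
        have h2 : φ a - φ b = 0 := sub_eq_zero.mpr hab
        rw [← h2, hφ]
        simp only
        rw [← Finset.sum_sub_distrib]
        apply Finset.sum_congr rfl
        intro i _
        rw [Rat.smul_def]
        push_cast
        ring
      funext i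
      have h2 := Fintype.linearIndependent_iff.mp hli _ h1 i
      have h3 : ((a i - b i : ℤ) : ℚ) = 0 := h2
      have h4 : a i - b i = 0 := by exact_mod_cast h3
      omega
    set A : Finset ℂ := (box n T).image φ with hA
    have hAa : ∀ β ∈ A, IsAlgebraic ℚ β := by
      intro β hβ
      obtain ⟨a, _, rfl⟩ := Finset.mem_image.mp hβ
      exact Pool.Agent.N638.ET.sum_alg _ (fun i => (isAlgebraic_intCast _).mul (hω i)) _
    have h1 := one 1 1 one_ne_zero one_ne_zero isAlgebraic_one A hAa
    have h2 : (A - A).card ≤ (4 * T + 1) ^ n := by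
      have h3 : A - A ⊆ (box n (2 * T)).image φ := by
        intro x hx
        obtain ⟨y, hy, z, hz, rfl⟩ := Finset.mem_sub.mp hx
        obtain ⟨a, ha, rfl⟩ := Finset.mem_image.mp hy
        obtain ⟨b, hb, rfl⟩ := Finset.mem_image.mp hz
        refine Finset.mem_image.mpr ⟨a - b, ?_, ?_⟩
        · rw [box, Fintype.mem_piFinset] at ha hb ⊢
          intro i
          have h4 := Finset.mem_Icc.mp (ha i)
          have h5 := Finset.mem_Icc.mp (hb i)
          rw [Finset.mem_Icc, Pi.sub_apply]
          push_cast
          omega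
        · rw [hφ]
          simp only
          rw [← Finset.sum_sub_distrib]
          apply Finset.sum_congr rfl
          intro i _
          rw [Pi.sub_apply]
          push_cast
          ring
      refine (Finset.card_le_card h3).trans (Finset.card_image_le.trans ?_)
      rw [box, Fintype.card_piFinset_const, Int.card_Icc]
      apply le_of_eq
      congr 1
      push_cast
      omega
    have h3 : ((box n T).filter fun a : Fin n → ℤ =>
        IsAlgebraic ℚ (Complex.exp (Complex.exp (∑ i, (a i : ℂ) * ω i)))).card ≤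
        (A.filter fun β => 1 * Complex.exp (1 * β) ∈ LogForms).card := by
      refine Finset.card_le_card_of_injOn φ ?_ hφi.injOn
      intro a ha
      rw [Finset.mem_coe, Finset.mem_filter] at ha
      rw [Finset.mem_coe, Finset.mem_filter]
      refine ⟨Finset.mem_image.mpr ⟨a, ha.1, rfl⟩, ?_⟩
      rw [one_mul, one_mul]
      exact Submodule.subset_span (Or.inr ha.2)
    calc (((box n T).filter fun a : Fin n → ℤ =>
        IsAlgebraic ℚ (Complex.exp (Complex.exp (∑ i, (a i : ℂ) * ω i)))).card : ℝ)
        ≤ ((A.filter fun β => 1 * Complex.exp (1 * β) ∈ LogForms).card : ℝ) := by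
          exact_mod_cast h3
      _ ≤ 2 * √((A - A).card) := h1
      _ ≤ 2 * √((4 * T + 1 : ℝ) ^ n) := by
          apply mul_le_mul_of_nonneg_left _ (by norm_num)
          apply Real.sqrt_le_sqrt
          exact_mod_cast h2
  · intro z γ δ hz hγ hδ hδ0 halg
    apply hz
    have h1 : γ + δ * z ∈ LogForms := Submodule.subset_span (Or.inr halg)
    have h2 : γ ∈ LogForms := by
      have := Pool.Agent.TH160.TowP.V_mul (V := LogForms) hγ
        (Submodule.subset_span (Or.inl rfl) : (1 : ℂ) ∈ LogForms)
      rwa [mul_one] at this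
    have h3 : δ * z ∈ LogForms := by
      have := LogForms.sub_mem h1 h2
      rwa [add_sub_cancel_left] at this
    exact Pool.Agent.TH160.TowP.mul_mem_iff hδ hδ0 h3

end Pool.Agent.Results.MP_58ae59_nt.AlgebraicPoints
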