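import Mathlib
import Pool.Agent.N778.XE.Meas

set_option autoImplicit false

/-!
# `e^e` and the integrals `∫_0^e s^l exp (-x e^s) ds`

For real `x, β` and `l ≥ 0` let `J_l(x, β) = ∫_0^β s^l exp (-x e^s) ds`, and for `l ≥ 1` let
`E_l(x) = ∑_{m ≥ 1} (-1)^(m-1) x^m / (m! m^l)`.

For complex numbers `a_1, …, a_n` with `a_n ≠ 0` let `I(a_1, …, a_n)` be the iterated integral of the
forms `ω_{a_1}(t_1), …, ω_{a_n}(t_n)` over `1 > t_1 > … > t_n > 0`, where `ω_0 = dt / t` and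
`ω_a = (exp (a t) - 1) dt / t` for `a ≠ 0`. Let `𝓕` be the field which is generated by all algebraic
numbers, all numbers `exp b`, `b` algebraic, and all numbers `I(a_1, …, a_n)` with algebraic
`a_1, …, a_n`, none of which is a negative real number. (So `𝓕` contains, for example, `e` and the
numbers `∑_m a^m / (m^j m!)` for all `j ≥ 1` and all algebraic `a` except the negative real ones.)

Let `V` be the set of the real numbers `β` such that `β` is algebraic over `𝓕` and `e^β` is algebraic.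
(`V` contains `0`; it contains `e` if and only if `e^e` is algebraic. Schanuel's conjecture would give
`V ∩ ℚ(e) = {0}`, but nothing is assumed about `V`.)

(1) Let `X` be a set of positive algebraic numbers, and `x / y` not in `exp (V)` for distinct `x, y` in
`X` (for example `X = {1}`). All the numbers `J_l(x, β)`, `l ≥ 0`, `x` in `X`, `β ≠ 0` in `V`, and
`E_l(x)`, `l ≥ 1`, `x` in `X`, are algebraically independent over `𝓕`.

(2) For all real `β ≠ 0` which are algebraic over `𝓕`, all algebraic `x > 0` and all `l ≥ 0` at least one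
of the two numbers `e^β` and `J_l(x, β)` is transcendental; the first one over `ℚ`, or the second one
over `𝓕`.

(3) In particular, at least one of `e^e` and `∫_0^e s^l exp (-x e^s) ds` is transcendental, for all
algebraic `x > 0` and `l ≥ 0`. If `e^e` is algebraic then the numbers `∫_0^(re) s^l exp (-x e^s) ds`,
`l ≥ 0`, `r ≠ 0` rational, are algebraically independent over `𝓕`.

(4) Let `x > 0` be rational and `A` a finite set of pairs `(l, β)`, `l ≥ 0`, `β ≠ 0` algebraic over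
`ℚ(e)` with `e^β` rational. The family of `e` and the numbers `J_l(x, β)`, `(l, β)` in `A`, has a measure
of algebraic independence which is polynomial in the height for every degree. Therefore, if `e^e` is
rational, then this is true for `e` and any finite family of numbers `∫_0^(re) s^l exp (-x e^s) ds`,
`l ≥ 0`, `r ≠ 0` an integer.
-/

namespace Pool.Agent.Results.MP_58ae59_nt.IntegralsUpToE

open Set

/-- `J_l(x, β) = ∫_0^β s^l exp (-x e^s) ds` -/
noncomputable def J (l : ℕ) (x β : ℝ) : ℝ := ∫ s in (0 : ℝ)..β, s ^ l * Real.exp (-(x * Real.exp s))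

/-- `E_l(x) = ∑_{m ≥ 1} (-1)^(m-1) x^m / (m! m^l)` -/
noncomputable def E (l : ℕ) (x : ℝ) : ℝ :=
  ∑' m : ℕ, -(-x) ^ (m + 1) / ((m + 1).factorial * ((m : ℝ) + 1) ^ l)

/-- the iterated integral of `ω_{a_1}(t_1), …, ω_{a_n}(t_n)` over `t > t_1 > … > t_n > 0` -/
noncomputable def iterated : List ℂ → ℝ → ℂ
  | [], _ => 1
  | a :: v, t => ∫ s in (0 : ℝ)..t, (if a = 0 then 1 else Complex.exp (a * s) - 1) * iterated v s / s

/-- `I(a_1, …, a_n)` -/
noncomputable def I (w : List ℂ) : ℂ := iterated w 1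

/-- the entries are algebraic, the last one is not zero, and none of them is a negative real number -/
def Admissible (w : List ℂ) : Prop :=
  (∀ a ∈ w, IsAlgebraic ℚ a) ∧ (∀ h : w ≠ [], w.getLast h ≠ 0) ∧ ∀ a ∈ w, ¬ (a.im = 0 ∧ a.re < 0)

/-- the field `𝓕` -/
noncomputable def baseField : IntermediateField ℚ ℂ := IntermediateField.adjoin ℚ
  ({z | IsAlgebraic ℚ z} ∪ {z | ∃ b : ℂ, IsAlgebraic ℚ b ∧ z = Complex.exp b} ∪
    {z | ∃ w : List ℂ, Admissible w ∧ z = I w})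

/-- `z` is algebraic over `𝓕` -/
def AlgebraicOver (z : ℂ) : Prop := IsAlgebraic baseField z

/-- the set `V` -/
def V : Set ℝ := {β | AlgebraicOver β ∧ IsAlgebraic ℚ (Real.exp β)}

/-- the names `((x, β), l)` with `x` in `X` and `β` in `V` -/
def names (X : Set ℝ) : Set ((ℝ × ℝ) × ℕ) := {p | p.1.1 ∈ X ∧ p.1.2 ∈ V}

open Classical in
/-- the number with the name `((x, β), l)`: `J_l(x, β)` if `β ≠ 0`, and `E_{l+1}(x)` if `β = 0` -/
noncomputable def number (p : (ℝ × ℝ) × ℕ) : ℝ := if p.1.2 = 0 then E (p.2 + 1) p.1.1 else J p.2 p.1.1 p.1.2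

/-- the family has a measure of algebraic independence which is polynomial in the height for every
degree: for every `D` there are `κ` and `c > 0` such that `|P(θ)| ≥ c H^(-κ)` for all polynomials
`P ≠ 0` of degree at most `D` with integer coefficients of absolute value at most `H` -/
def HasMeasure {ι : Type} (θ : ι → ℝ) : Prop :=
  ∀ D : ℕ, ∃ κ : ℕ, ∃ c : ℝ, 0 < c ∧ ∀ P : MvPolynomial ι ℤ, P ≠ 0 → P.totalDegree ≤ D → ∀ H : ℝ, 1 ≤ H →
    (∀ s, |((P.coeff s : ℤ) : ℝ)| ≤ H) → c ≤ H ^ κ * |MvPolynomial.aeval θ P|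

theorem J_eq : J = Pool.Agent.N778.XE.JI := rfl

theorem E_eq : E = Pool.Agent.R352.E.EE := rfl

open Pool.Agent.N902.EW in
theorem iterated_eq (w : List ℂ) : ∀ t : ℝ, iterated w t = II w t := by
  induction w with
  | nil => intro t; rfl
  | cons a v ih =>
    intro t
    rw [iterated, II]
    refine intervalIntegral.integral_congr fun s _ => ?_
    show (if a = 0 then 1 else Complex.exp (a * s) - 1) * iterated v s / s = _
    rw [ih]

open Pool.Agent.N902.EW Pool.Agent.N778.XE in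
theorem baseField_eq : baseField = FX := by
  rw [baseField, FX, GX]
  congr 2
  ext z
  constructor
  · rintro ⟨w, hw, rfl⟩
    exact ⟨w, ⟨hw.1, hw.2.1⟩, hw.2.2, iterated_eq w 1⟩
  · rintro ⟨w, hw, hneg, rfl⟩
    exact ⟨w, ⟨hw.1, hw.2, hneg⟩, (iterated_eq w 1).symm⟩

theorem over_iff (z : ℂ) : AlgebraicOver z ↔ IsAlgebraic Pool.Agent.N778.XE.FX z := by
  unfold AlgebraicOver
  rw [baseField_eq]

theorem V_eq : V = Pool.Agent.N778.XE.VX := by
  ext β
  exact and_congr_left fun _ => over_iff _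

theorem number_eq (p : (ℝ × ℝ) × ℕ) : number p = Pool.Agent.N778.XE.NumX p.1.1 p.1.2 p.2 := by
  rw [number, Pool.Agent.N778.XE.NumX]
  rfl

theorem part1 (X : Set ℝ) (hX : ∀ x ∈ X, 0 < x ∧ IsAlgebraic ℚ x)
    (hXX : ∀ x ∈ X, ∀ y ∈ X, ∀ β ∈ V, x = y * Real.exp β → x = y) :
    AlgebraicIndependent baseField (fun p : names X => ((number p : ℝ) : ℂ)) := by
  rw [V_eq] at hXX
  have h1 := Pool.Agent.N778.XE.ai_NumX X hX hXX
  rw [baseField_eq]
  have h2 := h1.comp (fun p : names X => ((⟨p.1.1.1, p.2.1⟩, ⟨p.1.1.2, V_eq ▸ p.2.2⟩), p.1.2)) (by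
    rintro ⟨⟨⟨x, β⟩, l⟩, hp⟩ ⟨⟨⟨y, γ⟩, m⟩, hr⟩ h
    have e1 : x = y := congrArg (fun z => z.1.1.1) h
    have e2 : β = γ := congrArg (fun z => z.1.2.1) h
    have e3 : l = m := congrArg (fun z => z.2) h
    subst e1 e2 e3
    rfl)
  have e : (fun p : names X => ((number p : ℝ) : ℂ)) = fun p : names X =>
      ((Pool.Agent.N778.XE.NumX p.1.1.1 p.1.1.2 p.1.2 : ℝ) : ℂ) := by
    funext p
    rw [number_eq]
  rw [e]
  exact h2

theorem single_ok (x : ℝ) : ∀ y ∈ ({x} : Set ℝ), ∀ z ∈ ({x} : Set ℝ), ∀ β ∈ V, y = z * Real.exp β → y = z := by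
  rintro y rfl z rfl β _ _
  rfl

theorem part2 {β : ℝ} (hβ0 : β ≠ 0) (hβ : AlgebraicOver β) {x : ℝ} (hx : 0 < x) (hxa : IsAlgebraic ℚ x) (l : ℕ) :
    Transcendental ℚ (Real.exp β) ∨ ¬ AlgebraicOver (J l x β) := by
  by_cases h : IsAlgebraic ℚ (Real.exp β)
  · right
    have h1 := part1 {x} (by rintro y rfl; exact ⟨hx, hxa⟩) (single_ok x)
    have hV : β ∈ V := ⟨hβ, h⟩
    have h2 := h1.transcendental ⟨((x, β), l), rfl, hV⟩
    have e : number ((x, β), l) = J l x β := by rw [number, if_neg hβ0]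
    rw [e] at h2
    exact h2
  · exact Or.inl h

theorem e_mem : ((Real.exp 1 : ℝ) : ℂ) ∈ baseField := by
  rw [Complex.ofReal_exp, Complex.ofReal_one]
  exact IntermediateField.subset_adjoin _ _ (Or.inl (Or.inr ⟨1, isAlgebraic_one, rfl⟩))

theorem e_over : AlgebraicOver ((Real.exp 1 : ℝ) : ℂ) :=
  isAlgebraic_algebraMap (⟨((Real.exp 1 : ℝ) : ℂ), e_mem⟩ : baseField)

theorem exp_int (n : ℤ) (x : ℝ) : Real.exp ((n : ℝ) * x) = Real.exp x ^ n := by
  rw [mul_comm, Real.exp_mul, Real.rpow_intCast]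

theorem re_mem {r : ℚ} (h : IsAlgebraic ℚ (Real.exp (Real.exp 1))) : (r : ℝ) * Real.exp 1 ∈ V := by
  refine ⟨?_, ?_⟩
  · have h1 : ((((r : ℝ) * Real.exp 1 : ℝ)) : ℂ) ∈ baseField := by
      rw [Complex.ofReal_mul]
      refine mul_mem ?_ e_mem
      have : (((r : ℝ)) : ℂ) = algebraMap ℚ ℂ r := by simp
      rw [this]
      exact baseField.algebraMap_mem r
    exact isAlgebraic_algebraMap (⟨_, h1⟩ : baseField)
  · have hd : (r.den : ℝ) ≠ 0 := by exact_mod_cast r.den_nz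
    have h2 : Real.exp ((r : ℝ) * Real.exp 1) ^ r.den = Real.exp (Real.exp 1) ^ r.num := by
      rw [← Real.exp_nat_mul, ← exp_int]
      congr 1
      have h3 : (r : ℝ) = (r.num : ℝ) / (r.den : ℝ) := by exact_mod_cast (Rat.num_div_den r).symm
      rw [h3]
      field_simp
    refine IsAlgebraic.of_pow (n := r.den) r.den_pos ?_
    rw [h2]
    rcases le_or_gt 0 r.num with h3 | h3
    · lift r.num to ℕ using h3 with n
      rw [zpow_natCast]
      exact h.pow n
    · obtain ⟨n, hn⟩ := Int.exists_eq_neg_ofNat h3.le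
      rw [hn, zpow_neg, zpow_natCast]
      exact (h.pow n).inv

theorem part3 : Transcendental ℚ (Real.exp (Real.exp 1)) ∨ ∀ x : ℝ, 0 < x → IsAlgebraic ℚ x →
    AlgebraicIndependent baseField
      (fun p : {p : ℕ × ℚ // p.2 ≠ 0} => ((J p.1.1 x ((p.1.2 : ℝ) * Real.exp 1) : ℝ) : ℂ)) := by
  by_cases h : IsAlgebraic ℚ (Real.exp (Real.exp 1))
  · right
    intro x hx hxa
    have h1 := part1 {x} (by rintro y rfl; exact ⟨hx, hxa⟩) (single_ok x)
    have h2 := h1.comp (fun p : {p : ℕ × ℚ // p.2 ≠ 0} =>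
      (⟨((x, (p.1.2 : ℝ) * Real.exp 1), p.1.1), rfl, re_mem h⟩ : names {x})) (by
      rintro ⟨⟨l, r⟩, hr⟩ ⟨⟨m, s⟩, hs⟩ hh
      have e1 : l = m := congrArg (fun z => z.1.2) hh
      have e2 : (r : ℝ) * Real.exp 1 = (s : ℝ) * Real.exp 1 := congrArg (fun z => z.1.1.2) hh
      have e3 : (r : ℝ) = (s : ℝ) := mul_right_cancel₀ (Real.exp_pos 1).ne' e2
      have e4 : r = s := by exact_mod_cast e3
      subst e1 e4
      rfl)
    have e : (fun p : {p : ℕ × ℚ // p.2 ≠ 0} => ((J p.1.1 x ((p.1.2 : ℝ) * Real.exp 1) : ℝ) : ℂ)) =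
        (fun p : names {x} => ((number p : ℝ) : ℂ)) ∘ (fun p : {p : ℕ × ℚ // p.2 ≠ 0} =>
          (⟨((x, (p.1.2 : ℝ) * Real.exp 1), p.1.1), rfl, re_mem h⟩ : names {x})) := by
      funext p
      have hr : (p.1.2 : ℝ) ≠ 0 := by exact_mod_cast p.2
      show _ = ((number ((x, (p.1.2 : ℝ) * Real.exp 1), p.1.1) : ℝ) : ℂ)
      rw [number, if_neg (mul_ne_zero hr (Real.exp_pos 1).ne')]
    rw [e]
    exact h2
  · exact Or.inl h

theorem part4 (x : ℚ) (hx : 0 < x) (A : Finset (ℕ × ℝ))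
    (hA : ∀ p ∈ A, p.2 ≠ 0 ∧ IsAlgebraic (IntermediateField.adjoin ℚ {Real.exp 1}) p.2 ∧ ∃ q : ℚ, Real.exp p.2 = q) :
    HasMeasure (Sum.elim (fun _ : Fin 1 => Real.exp 1) (fun p : A => J (p : ℕ × ℝ).1 x (p : ℕ × ℝ).2)) :=
  Pool.Agent.N778.XE.meas_J hx A fun p hp => ⟨(hA p hp).1, Pool.Agent.R352.E.mem_clF.2 (hA p hp).2.1, (hA p hp).2.2⟩

theorem part5 : Irrational (Real.exp (Real.exp 1)) ∨ ∀ x : ℚ, 0 < x → ∀ A : Finset (ℕ × ℤ), (∀ p ∈ A, p.2 ≠ 0) →
    HasMeasure (Sum.elim (fun _ : Fin 1 => Real.exp 1)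
      (fun p : A => J (p : ℕ × ℤ).1 x (((p : ℕ × ℤ).2 : ℝ) * Real.exp 1))) := by
  classical
  by_cases h : Irrational (Real.exp (Real.exp 1))
  · exact Or.inl h
  · right
    intro x hx A hA
    obtain ⟨q, hq⟩ : ∃ q : ℚ, (q : ℝ) = Real.exp (Real.exp 1) := by
      rw [Irrational] at h
      push Not at h
      exact h
    let f : ℕ × ℤ → ℕ × ℝ := fun p => (p.1, (p.2 : ℝ) * Real.exp 1)
    have hf : Function.Injective f := by
      rintro ⟨l, r⟩ ⟨m, s⟩ hh
      have e1 : l = m := congrArg Prod.fst hh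
      have e2 : (r : ℝ) * Real.exp 1 = (s : ℝ) * Real.exp 1 := congrArg Prod.snd hh
      have e3 : (r : ℝ) = (s : ℝ) := mul_right_cancel₀ (Real.exp_pos 1).ne' e2
      have e4 : r = s := by exact_mod_cast e3
      subst e1 e4
      rfl
    have h1 := part4 x hx (A.image f) (fun p hp => by
      obtain ⟨p', hp', rfl⟩ := Finset.mem_image.1 hp
      refine ⟨?_, ?_, q ^ p'.2, ?_⟩
      · have : (p'.2 : ℝ) ≠ 0 := by exact_mod_cast hA _ hp'
        exact mul_ne_zero this (Real.exp_pos 1).ne'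
      · have h2 : (p'.2 : ℝ) * Real.exp 1 ∈ IntermediateField.adjoin ℚ {Real.exp 1} :=
          mul_mem (intCast_mem _ _) (IntermediateField.subset_adjoin _ _ rfl)
        exact isAlgebraic_algebraMap (⟨_, h2⟩ : IntermediateField.adjoin ℚ {Real.exp 1})
      · show Real.exp ((p'.2 : ℝ) * Real.exp 1) = _
        rw [exp_int, ← hq]
        push_cast
        rfl)
    let g : Fin 1 ⊕ A → Fin 1 ⊕ (A.image f : Finset (ℕ × ℝ)) := Sum.map id fun p : A =>
      (⟨f p, Finset.mem_image_of_mem _ p.2⟩ : (A.image f : Finset (ℕ × ℝ)))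
    have hg : Function.Injective g := by
      refine Function.Injective.sumMap Function.injective_id ?_
      intro a b hab
      exact Subtype.ext (hf (congrArg (fun z : (A.image f : Finset (ℕ × ℝ)) => (z : ℕ × ℝ)) hab))
    have h3 : Pool.Agent.N778.EM.MeasF _ := h1
    have h2 : HasMeasure (Sum.elim (fun _ : Fin 1 => Real.exp 1)
      (fun p : (A.image f : Finset (ℕ × ℝ)) => J (p : ℕ × ℝ).1 x (p : ℕ × ℝ).2) ∘ g) := h3.comp g hg
    convert h2 using 1
    funext s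
    rcases s with s | s
    · rfl
    · rfl

theorem result :
    -- (1)
    (∀ X : Set ℝ, (∀ x ∈ X, 0 < x ∧ IsAlgebraic ℚ x) →
      (∀ x ∈ X, ∀ y ∈ X, ∀ β ∈ V, x = y * Real.exp β → x = y) →
      AlgebraicIndependent baseField (fun p : names X => ((number p : ℝ) : ℂ))) ∧
    -- (2)
    (∀ β : ℝ, β ≠ 0 → AlgebraicOver β → ∀ x : ℝ, 0 < x → IsAlgebraic ℚ x → ∀ l : ℕ,
      Transcendental ℚ (Real.exp β) ∨ ¬ AlgebraicOver (J l x β)) ∧
    -- (3)
    (∀ x : ℝ, 0 < x → IsAlgebraic ℚ x → ∀ l : ℕ,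
      Transcendental ℚ (Real.exp (Real.exp 1)) ∨ Transcendental ℚ (J l x (Real.exp 1))) ∧
    (Transcendental ℚ (Real.exp (Real.exp 1)) ∨ ∀ x : ℝ, 0 < x → IsAlgebraic ℚ x →
      AlgebraicIndependent baseField
        (fun p : {p : ℕ × ℚ // p.2 ≠ 0} => ((J p.1.1 x ((p.1.2 : ℝ) * Real.exp 1) : ℝ) : ℂ))) ∧
    -- (4)
    (∀ x : ℚ, 0 < x → ∀ A : Finset (ℕ × ℝ),
      (∀ p ∈ A, p.2 ≠ 0 ∧ IsAlgebraic (IntermediateField.adjoin ℚ {Real.exp 1}) p.2 ∧ ∃ q : ℚ, Real.exp p.2 = q) →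
      HasMeasure (Sum.elim (fun _ : Fin 1 => Real.exp 1) (fun p : A => J (p : ℕ × ℝ).1 x (p : ℕ × ℝ).2))) ∧
    (Irrational (Real.exp (Real.exp 1)) ∨ ∀ x : ℚ, 0 < x → ∀ A : Finset (ℕ × ℤ), (∀ p ∈ A, p.2 ≠ 0) →
      HasMeasure (Sum.elim (fun _ : Fin 1 => Real.exp 1)
        (fun p : A => J (p : ℕ × ℤ).1 x (((p : ℕ × ℤ).2 : ℝ) * Real.exp 1)))) := by
  refine ⟨part1, fun β h0 h x hx hxa l => part2 h0 h hx hxa l, fun x hx hxa l => ?_, part3, part4, part5⟩
  rcases part2 (Real.exp_pos 1).ne' e_over hx hxa l with h | h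
  · exact Or.inl h
  · right
    intro h1
    exact h ((h1.algebraMap (A := ℂ)).extendScalars (algebraMap ℚ baseField).injective)

end Pool.Agent.Results.MP_58ae59_nt.IntegralsUpToE
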