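import Pool.Agent.N603.DB.Nr
import Pool.Agent.N603.DB.ItM
import Pool.Agent.N603.DB.Nq1

/-!
# Iterated exponentials at the algebraic numbers near almost every point

The number `e^e` is the value of the function `e^(e^x)` at `x = 1`. Let `E_0(x) = x`, `E_(k+1)(x) = exp(E_k(x))`. For
natural numbers `n ≥ 1` and `D ≥ 1` we consider the exponentials of all nonconstant monomials of degree at most `D` in each
of the functions `x, E_1(x), …, E_n(x)`: the numbers

`exp(x^(a_0) E_1(x)^(a_1) … E_n(x)^(a_n))`, `0 ≤ a_i ≤ D`, not all `a_i = 0`,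

at algebraic numbers `x`; for `n = 1` these are the numbers `exp(x^a e^(b x))`. They contain `E_1(x), …, E_(n+1)(x)`; so for
`x = 1` they contain `e`, `e^e`, `e^(e^e)`, … Let `c_0, c_1, …` be arbitrary complex numbers, for instance `1`, or the
elements of a countable field.

(1) For all complex numbers `ξ` outside a set of Hausdorff dimension ZERO, all number fields `F` in `ℂ`, all degrees `d`,
all powers `A` and all exponents `τ > 0` there is `B` such that for all `C`: at ALL but finitely many elements `x` of `F`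
with `|ξ - x| ≤ C T^(-τ)`, `T` the height of `x`, these numbers are good: they satisfy no polynomial relation of degree at
most `d`, not even an approximate one, whose coefficients are combinations of the numbers `c_0, …, c_(g-1)` with
coefficients in `F` of height at most `T ^ A`, and together with `π` no such relation over `F`. In particular `e^(e^x)` is
no element of `F` of height at most `T ^ A`. For real `ξ` and rational `x` the case `τ = 2` concerns all convergents of
`ξ`; but every `τ > 0` is allowed, and for small `τ` there are very many `x`.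

(2) The same at EVERY element `x` of `F` in a compact set with a height within `q^κ` of `G q`, where `q` runs through the
natural numbers with `‖q α_j - β_j‖ ≤ C q^(-τ)` for `j = 1, …, m`, for all `α` in `ℝ^m` outside a set of Hausdorff
dimension at most `(m + κ) / (1 + τ)`. For `β = 0`, `C = 1`, `τ = 1 / m` these `q` include the denominators of all best
simultaneous approximations; they form a very sparse sequence, and for `κ < 1` the bound is less than `m`, so that the
statement holds for almost all `α`. `G` is a function with steps bounded below by a positive constant and growth at most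
`v^e`, for example `a v^e`.

Proof. The iterated exponentials are algebraically independent over `ℂ(x)` by Ax's theorem, since no nontrivial integral
combination of `x, E_1, …, E_(n-1)` is constant (periodicity); hence no nontrivial integral combination of the nonconstant
monomials is constant, and a second application of Ax's theorem shows that the exponentials of the monomials are
algebraically independent over `ℂ(x)`. The elements of height at most `T` in a compact set which are bad at their own
height are `O(T^ε)` in number for every `ε > 0` (determinants of Bombieri-Pila type); so the limit superior of the discs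
with radii `C T^(-τ)` around them has dimension at most `ε / τ`, and for (2) the `q` for which a bad element has a height
near `G q` form a set with `O(X^(κ + ε))` elements up to `X`, and the `α` with infinitely many approximations with
denominators in such a set are covered by few small cubes (`Pool.Agent.N671.DA`). There are only countably many number
fields in `ℂ`.
-/

set_option autoImplicit false

open NumberField

namespace Pool.Agent.Results.MP_58ae59_nt.IteratedExponentials

open Pool.Agent.N671.DA (Solves Expanding expanding_pow)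

/-- The iterated exponentials: `it 0 x = x`, `it (k + 1) x = exp (it k x)`. -/
noncomputable def it : ℕ → ℂ → ℂ
  | 0, x => x
  | k + 1, x => Complex.exp (it k x)

/-- The names of the nonconstant monomials in `x, E_1(x), …, E_n(x)` of degree at most `D` in each of them: the exponents
(`none` for `x`, `some j` for `E_(j+1)(x)`). -/
abbrev Names (n D : ℕ) : Type := {a : Option (Fin n) → Fin (D + 1) // a ≠ 0}

/-- The exponential of the monomial with the exponents `a` at `x`. -/
noncomputable def value (n D : ℕ) (x : ℂ) (a : Names n D) : ℂ :=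
  Complex.exp (x ^ (a.1 none : ℕ) * ∏ j : Fin n, it (j + 1) x ^ (a.1 (some j) : ℕ))

/-- The polynomials of degree at most `d` in each variable, all of whose coefficients are of the form `∑ ξ_i ι(c_i)`, where
the `c_i` are integers of the number field `F` all of whose conjugates have absolute value at most `H`. -/
def Admissible {σ : Type} {g : ℕ} (F : Type) [Field F] [NumberField F] (ι : F →+* ℂ) (ξ : Fin g → ℂ) (d : ℕ) (H : ℝ)
    (P : MvPolynomial σ ℂ) : Prop :=
  (∀ y, P.degreeOf y ≤ d) ∧
    ∀ s, ∃ c : Fin g → 𝓞 F, (∀ i (φ : F →+* ℂ), ‖φ (c i)‖ ≤ H) ∧ P.coeff s = ∑ i, ξ i * ι (c i)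

/-- The complex numbers `v` are good: every admissible polynomial takes at them a value which is at least `δ` times each of
its coefficients, and `π` and these numbers satisfy no relation `Q = 0` with a nonzero polynomial `Q` of degree at most `d`
in each variable whose coefficients are integers of `F` with conjugates of absolute value at most `H`. -/
def Good {σ : Type} {g : ℕ} (F : Type) [Field F] [NumberField F] (ι : F →+* ℂ) (ξ : Fin g → ℂ) (d : ℕ)
    (H δ : ℝ) (v : σ → ℂ) : Prop :=
  (∀ P : MvPolynomial σ ℂ, Admissible F ι ξ d H P → ∀ s, δ * ‖P.coeff s‖ ≤ ‖MvPolynomial.aeval v P‖) ∧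
  ∀ Q : MvPolynomial (Option σ) (𝓞 F), Q ≠ 0 → (∀ x, Q.degreeOf x ≤ d) →
    (∀ s (φ : F →+* ℂ), ‖φ ((Q.coeff s : 𝓞 F) : F)‖ ≤ H) →
    MvPolynomial.eval₂ (ι.comp (algebraMap (𝓞 F) F)) (fun o => o.elim (Real.pi : ℂ) v) Q ≠ 0

/-- The element `x` of `F` is a quotient of integers all of whose conjugates have absolute value at most `T`. -/
def HeightLe (F : Type) [Field F] [NumberField F] (T : ℝ) (x : F) : Prop :=
  ∃ a b : 𝓞 F, b ≠ 0 ∧ (∀ φ : F →+* ℂ, ‖φ a‖ ≤ T ∧ ‖φ b‖ ≤ T) ∧ x = a / b

/-- The height of `x`: the least `T` such that `x` is a quotient of two integers of `F` all of whose conjugates have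
absolute value at most `T`. -/
noncomputable def height (F : Type) [Field F] [NumberField F] (x : F) : ℝ := sInf {T : ℝ | HeightLe F T x}

theorem it_eq (k : ℕ) (x : ℂ) : it k x = Pool.Agent.N603.DB.ItE.it k x := by
  induction k with
  | zero => rfl
  | succ k ih => rw [Pool.Agent.N603.DB.ItE.it_succ, ← ih]; rfl

theorem value_eq (n D : ℕ) (x : ℂ) (a : Names n D) : Pool.Agent.N603.DB.ItE.vals n D a x = value n D x a := by
  unfold value Pool.Agent.N603.DB.ItE.vals Pool.Agent.N603.DB.ItE.mon Pool.Agent.N603.DB.ItE.val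
  simp only [it_eq]

/-- the iterated exponentials are among the values -/
theorem exists_name (n D : ℕ) (hD : 0 < D) (k : ℕ) (hk : k ≤ n) :
    ∃ a : Names n D, ∀ x : ℂ, value n D x a = it (k + 1) x := by
  classical
  have hone : ((1 : Fin (D + 1)) : ℕ) = 1 := by
    rw [Fin.val_one']
    exact Nat.mod_eq_of_lt (by omega)
  have h10 : (1 : Fin (D + 1)) ≠ 0 := by
    intro h
    have := congrArg Fin.val h
    rw [hone] at this
    simp at this
  have hsing : ∀ o : Option (Fin n), (Pi.single o (1 : Fin (D + 1)) : Option (Fin n) → Fin (D + 1)) ≠ 0 := by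
    intro o h
    have := congrFun h o
    rw [Pi.single_eq_same] at this
    exact h10 this
  rcases k with _ | k
  · refine ⟨⟨Pi.single none 1, hsing _⟩, fun x => ?_⟩
    show Complex.exp _ = Complex.exp (it 0 x)
    congr 1
    show x ^ (((Pi.single none 1 : Option (Fin n) → Fin (D + 1)) none : Fin (D + 1)) : ℕ) * ∏ j : Fin n,
      it (j + 1) x ^ (((Pi.single none 1 : Option (Fin n) → Fin (D + 1)) (some j) : Fin (D + 1)) : ℕ) = x
    rw [Pi.single_eq_same, hone, pow_one]
    have : ∀ j : Fin n, it (j + 1) x ^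
        (((Pi.single none 1 : Option (Fin n) → Fin (D + 1)) (some j) : Fin (D + 1)) : ℕ) = 1 := by
      intro j
      rw [Pi.single_eq_of_ne (by simp)]
      simp
    rw [Finset.prod_congr rfl fun j _ => this j]
    simp
  · refine ⟨⟨Pi.single (some ⟨k, by omega⟩) 1, hsing _⟩, fun x => ?_⟩
    show Complex.exp _ = Complex.exp (it (k + 1) x)
    congr 1
    show x ^ (((Pi.single (some ⟨k, by omega⟩) 1 : Option (Fin n) → Fin (D + 1)) none : Fin (D + 1)) : ℕ) *
      ∏ j : Fin n, it (j + 1) x ^
      (((Pi.single (some ⟨k, by omega⟩) 1 : Option (Fin n) → Fin (D + 1)) (some j) : Fin (D + 1)) : ℕ) = it (k + 1) x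
    rw [Pi.single_eq_of_ne (Option.some_ne_none _).symm]
    rw [Finset.prod_eq_single ⟨k, by omega⟩]
    · rw [Pi.single_eq_same, hone, pow_one]
      simp
    · intro j _ hj
      rw [Pi.single_eq_of_ne (by simpa using hj)]
      simp
    · intro h
      exact absurd (Finset.mem_univ _) h

/-- **Iterated exponentials near every point and at the denominators of good approximations.** Let `n, D ≥ 1` and let
`c_0, c_1, …` be complex numbers.
(1) There is a set `E` in `ℂ` of Hausdorff dimension zero, whose real elements form a set of Hausdorff dimension zero,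
such that for all `ξ` not in `E`, all number fields `F` in `ℂ`, all `g`, `d`, `A` and all `τ > 0`: there is `B` such that
for all `C` there is `T₁` such that for ALL `x` in `F` of height `T ≥ T₁` with `|ξ - x| ≤ C T^(-τ)` the exponentials of all
nonconstant monomials in `x, E_1(x), …, E_n(x)` of degree at most `D` are good, for the degree `d`, the height `T ^ A`, the
numbers `c_0, …, c_(g-1)` and the measure `T ^ (-B)`; and (for `T ≥ T₂`) none of them is an element of `F` of height at
most `T ^ A`.
(2) Let `G` have steps `≥ a > 0` and growth at most `v^b`, `0 ≤ κ ≤ 1`, `β` in `ℝ^m` and `τ > 0`. There is a set `E` in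
`ℝ^m` of Hausdorff dimension at most `(m + κ) / (1 + τ)` such that for all `α` outside `E`, all number fields `F` in `ℂ`,
all `g`, `d`, `A` and all compact `L` in `ℂ` there is `B` such that for all `C` and all large `q` with
`‖q α_j - β_j‖ ≤ C q^(-τ)` for all `j`: the same at EVERY `x` in `F ∩ L` with `|height x - G q| ≤ q^κ`; and (for all
large `q`) none of the exponentials is an element of `F` of height at most `T ^ A`.
(3) `E_1(x), …, E_(n+1)(x)` are among these exponentials. Only finitely many elements of `F` have a height less than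
`T₁`; the infimum in the definition of the height is a minimum, the height of a rational number in `(0, 1)` is its
denominator, and the functions `a v^b` with `a > 0`, `b ≥ 1` are examples of `G`. -/
theorem result :
    (∀ (n D : ℕ), 0 < n → 0 < D → ∀ c : ℕ → ℂ,
      (∃ E : Set ℂ, dimH E = 0 ∧ dimH {y : ℝ | (y : ℂ) ∈ E} = 0 ∧
        ∀ ξ : ℂ, ξ ∉ E → ∀ (F : IntermediateField ℚ ℂ) [NumberField F] (g d : ℕ) (A τ : ℝ), 0 < τ →
          (∃ B : ℝ, ∀ C : ℝ, ∃ T₁ : ℝ, ∀ x : F, T₁ ≤ height F x → ‖ξ - (x : ℂ)‖ ≤ C * height F x ^ (-τ) →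
            Good F (algebraMap F ℂ) (fun i : Fin g => c i) d (height F x ^ A) (height F x ^ (-B))
              (value n D (x : ℂ))) ∧
          ∀ C : ℝ, ∃ T₂ : ℝ, ∀ x : F, T₂ ≤ height F x → ‖ξ - (x : ℂ)‖ ≤ C * height F x ^ (-τ) →
            ∀ (a : Names n D) (y : F), height F y ≤ height F x ^ A → value n D (x : ℂ) a ≠ (y : ℂ)) ∧
      ∀ (G : ℕ → ℝ) (b : ℝ), Expanding G b → ∀ κ : ℝ, 0 ≤ κ → κ ≤ 1 → ∀ (m : ℕ) (β : Fin m → ℝ) (τ : ℝ), 0 < τ →
      ∃ E : Set (Fin m → ℝ), dimH E ≤ ENNReal.ofReal ((m + κ) / (1 + τ)) ∧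
        ∀ α, α ∉ E → ∀ (F : IntermediateField ℚ ℂ) [NumberField F] (g d : ℕ) (A : ℝ) (L : Set ℂ), IsCompact L →
          (∃ B : ℝ, ∀ C : ℝ, ∃ Q : ℕ, ∀ q : ℕ, Q ≤ q → Solves α β q (C * (q : ℝ) ^ (-τ)) →
            ∀ x : F, (x : ℂ) ∈ L → |height F x - G q| ≤ (q : ℝ) ^ κ →
              Good F (algebraMap F ℂ) (fun i : Fin g => c i) d (height F x ^ A) (height F x ^ (-B))
                (value n D (x : ℂ))) ∧
          ∀ C : ℝ, ∃ Q : ℕ, ∀ q : ℕ, Q ≤ q → Solves α β q (C * (q : ℝ) ^ (-τ)) →
            ∀ x : F, (x : ℂ) ∈ L → |height F x - G q| ≤ (q : ℝ) ^ κ →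
              ∀ (a : Names n D) (y : F), height F y ≤ height F x ^ A → value n D (x : ℂ) a ≠ (y : ℂ)) ∧
    (∀ (n D : ℕ), 0 < D → ∀ k : ℕ, k ≤ n → ∃ a : Names n D, ∀ x : ℂ, value n D x a = it (k + 1) x) ∧
    (∀ (F : Type) [Field F] [NumberField F] (T : ℝ), {x : F | height F x < T}.Finite) ∧
    (∀ (F : Type) [Field F] [NumberField F] (x : F) (T : ℝ), height F x ≤ T ↔ HeightLe F T x) ∧
    (∀ (F : Type) [Field F] [NumberField F] (r : ℚ), 0 < r → r < 1 → height F (r : F) = r.den) ∧
    ∀ a b : ℝ, 0 < a → 1 ≤ b → Expanding (fun v => a * (v : ℝ) ^ b) b := by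
  refine ⟨fun n D hn hD c => ?_, fun n D hD k hk => exists_name n D hD k hk,
    fun F _ _ T => Pool.Agent.N603.DB.fin_lt F T, fun F _ _ x T => Pool.Agent.N603.DA.ht_le_iff F x T,
    fun F _ _ r h0 h1 => Pool.Agent.N603.DA.ht_rat F r h0 h1, fun a b ha hb => expanding_pow ha hb⟩
  have hv : ∀ x : ℂ, (fun a : Names n D => Pool.Agent.N603.DB.ItE.vals n D a x) = value n D x := fun x =>
    funext fun a => value_eq n D x a
  refine ⟨?_, fun G b hG κ hκ hκ1 m β τ hτ => ?_⟩
  · obtain ⟨E, hE, h⟩ := Pool.Agent.N603.DB.near_every (Pool.Agent.N603.DB.ItE.vals n D) Set.univ isOpen_univ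
      (fun j x _ => Pool.Agent.N603.DB.ItE.vals_an n D j x) (Pool.Agent.N603.DB.ItE.locM n D hn hD) c
    obtain ⟨E', hE', h'⟩ := Pool.Agent.N603.DB.near_every (Pool.Agent.N603.DB.ItE.vals n D) Set.univ isOpen_univ
      (fun j x _ => Pool.Agent.N603.DB.ItE.vals_an n D j x) (Pool.Agent.N603.DB.ItE.locM n D hn hD) (fun _ => 1)
    have hEE : dimH (E ∪ E') = 0 := by rw [dimH_union, hE, hE', max_self]
    refine ⟨E ∪ E', hEE, Pool.Agent.N603.DB.dim_real hEE, fun ξ hξE F _ g d A τ hτ => ⟨?_, fun C => ?_⟩⟩
    · obtain ⟨B, hB⟩ := h ξ (Set.mem_univ _) (fun h1 => hξE (Or.inl h1)) F g d A τ hτ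
      refine ⟨B, fun C => ?_⟩
      obtain ⟨T₁, hT₁⟩ := hB C
      refine ⟨T₁, fun x hx hd => ?_⟩
      have h1 := (hT₁ x hx hd).2
      rw [hv] at h1
      exact h1
    · obtain ⟨B, hB⟩ := h' ξ (Set.mem_univ _) (fun h1 => hξE (Or.inr h1)) F 1 1 A τ hτ
      obtain ⟨T₁, hT₁⟩ := hB C
      refine ⟨T₁, fun x hx hd a y hy => ?_⟩
      have h1 := (hT₁ x hx hd).2
      rw [hv] at h1
      have hpos : 0 < Pool.Agent.N603.DA.ht F x ^ (-B) :=
        Real.rpow_pos_of_pos (by linarith [Pool.Agent.N603.DA.one_le_ht F x]) _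
      obtain ⟨p, r, hb, hab, hyab⟩ := (Pool.Agent.N603.DA.ht_le_iff F y _).1 hy
      have h2 := Pool.Agent.N603.DB.not_quot1 hpos a h1 p r hb hab
      rw [hyab]
      exact h2
  · obtain ⟨E, hE, h⟩ := Pool.Agent.N603.DB.master_all' (Pool.Agent.N603.DB.ItE.vals n D) Set.univ isOpen_univ
      (fun j x _ => Pool.Agent.N603.DB.ItE.vals_an n D j x) (Pool.Agent.N603.DB.ItE.locM n D hn hD) c hG hκ hκ1 β hτ
    obtain ⟨E', hE', h'⟩ := Pool.Agent.N603.DB.master_all' (Pool.Agent.N603.DB.ItE.vals n D) Set.univ isOpen_univ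
      (fun j x _ => Pool.Agent.N603.DB.ItE.vals_an n D j x) (Pool.Agent.N603.DB.ItE.locM n D hn hD) (fun _ => 1)
      hG hκ hκ1 β hτ
    refine ⟨E ∪ E', ?_, fun α hα F _ g d A L hL => ⟨?_, fun C => ?_⟩⟩
    · rw [dimH_union]
      exact max_le hE hE'
    · obtain ⟨B, hB⟩ := h α (fun h1 => hα (Or.inl h1)) F g d A L hL (Set.subset_univ _)
      refine ⟨B, fun C => ?_⟩
      obtain ⟨Q, hQ⟩ := hB C
      refine ⟨Q, fun q hq hs x hx hG' => ?_⟩
      have h1 := hQ q hq hs x hx hG'
      rw [hv] at h1
      exact h1
    · obtain ⟨B, hB⟩ := h' α (fun h1 => hα (Or.inr h1)) F 1 1 A L hL (Set.subset_univ _)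
      obtain ⟨Q, hQ⟩ := hB C
      refine ⟨Q, fun q hq hs x hx hG' a y hy => ?_⟩
      have h1 := hQ q hq hs x hx hG'
      rw [hv] at h1
      have hpos : 0 < Pool.Agent.N603.DA.ht F x ^ (-B) :=
        Real.rpow_pos_of_pos (by linarith [Pool.Agent.N603.DA.one_le_ht F x]) _
      obtain ⟨p, r, hb, hab, hyab⟩ := (Pool.Agent.N603.DA.ht_le_iff F y _).1 hy
      have h2 := Pool.Agent.N603.DB.not_quot1 hpos a h1 p r hb hab
      rw [hyab]
      exact h2

end Pool.Agent.Results.MP_58ae59_nt.IteratedExponentials
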