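import Pool.Agent.N538.MR.PairN

set_option autoImplicit false

/-!
# Is one of the numbers `e ^ (e + k)` near a rational number at every scale?

At most one of the numbers `e ^ (e + k)`, `k` an integer, is rational. Let `K` be a set of `N`
integers. By Dirichlet's theorem every number `θ` has, for every `X ≥ 1`, an integer `1 ≤ q ≤ X`
with `q θ` within `X ^ (-1)` of an integer. We show: if `w > 2`, `w (w - 2) ^ (N - 1) > 1` and if at
every large scale `X` one of the numbers `e ^ (e + k)`, `k ∈ K`, has an integer `1 ≤ q ≤ X` with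
`q e ^ (e + k)` within `X ^ (-w)` of an integer, then one of these numbers is rational. The same
holds with any real number `x` in place of the exponent `e`.
-/

namespace Pool.Agent.Results.MP_58ae59_nt.OneOfManyNearRational

/-- some integer `1 ≤ q ≤ X` has `q θ` within `δ` of an integer -/
def NearRational (θ X δ : ℝ) : Prop := ∃ q p : ℤ, 1 ≤ q ∧ (q : ℝ) ≤ X ∧ |q * θ - p| ≤ δ

open Pool.Agent.N538.MR

lemma near_of_rational {θ : ℝ} (h : ¬ Irrational θ) :
    ∃ Y : ℝ, ∀ X w : ℝ, Y ≤ X → NearRational θ X (X ^ (-w)) := by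
  rw [Irrational, not_not] at h
  obtain ⟨r, rfl⟩ := h
  refine ⟨r.den, fun X w hX => ⟨r.den, r.num, ?_, ?_, ?_⟩⟩
  · have := r.pos
    omega
  · rw [Int.cast_natCast]
    exact hX
  · have e : (((r.den : ℤ) : ℝ)) * (r : ℝ) - (r.num : ℝ) = 0 := by
      have := Rat.den_mul_eq_num r
      have h2 : ((r.den : ℚ) : ℝ) * (r : ℝ) = ((r.num : ℚ) : ℝ) := by
        exact_mod_cast congrArg (fun z : ℚ => (z : ℝ)) this
      push_cast at h2 ⊢
      linarith
    rw [e, abs_zero]
    have : (0 : ℝ) ≤ X := (Nat.cast_nonneg _).trans hX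
    positivity

/-- Let `K` be a finite set of integers with `N` elements, `w > 2` and `w (w - 2) ^ (N - 1) > 1`
(for `N = 2` this means `w > 1 + √2`, and `w ≥ 3` is enough for every `N`). For every real `x`, for
instance `x = e`: one of the numbers `e ^ (x + k)`, `k ∈ K`, is rational if and only if at all large
scales `X` one of these numbers has an integer `1 ≤ q ≤ X` with `q e ^ (x + k)` within `X ^ (-w)` of
an integer. -/
theorem result (K : Finset ℤ) (w : ℝ) (hw : 2 < w) (hK : 1 < w * (w - 2) ^ (K.card - 1)) (x : ℝ) :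
    (∃ k ∈ K, ¬ Irrational (Real.exp (x + k))) ↔
      ∃ Y : ℝ, ∀ X : ℝ, Y ≤ X → ∃ k ∈ K, NearRational (Real.exp (x + k)) X (X ^ (-w)) := by
  constructor
  · rintro ⟨k, hk, h⟩
    obtain ⟨Y, hY⟩ := near_of_rational h
    exact ⟨Y, fun X hX => ⟨k, hk, hY X w hX⟩⟩
  · rintro ⟨Y, hY⟩
    by_contra hcon
    push Not at hcon
    have e : ∀ k : ℤ, Real.exp (x + k) = Real.exp k * Real.exp x := fun k => by
      rw [Real.exp_add, mul_comm]
    obtain ⟨X, hX, h⟩ := pairN (ι := K) (θ := fun k => Real.exp ((k : ℤ) : ℝ) * Real.exp x) (κ := 1)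
      (w := w) one_pos (by linarith) (by
        rw [Fintype.card_coe, one_pow]
        have : w - 1 - 1 = w - 2 := by ring
        rw [this]
        exact hK)
      (fun i j hij ε hε => sepExp (Real.exp_pos x).ne' (fun h => hij (Subtype.ext h)) ε hε)
      (fun i => by
        rw [← e]
        exact hcon i i.2) Y
    obtain ⟨k, hk, h1⟩ := hY X hX
    apply h ⟨k, hk⟩
    rw [← e]
    exact h1

end Pool.Agent.Results.MP_58ae59_nt.OneOfManyNearRational
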